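import Pool.Agent.Lib.MP_f83138_lc.DR.Defs

/-!
Tree decompositions of digraphs as inputs.
-/

set_option autoImplicit false

namespace Pool.Agent.TI

/-- A rooted tree with `N` nodes, given by the parent of every node (the root is its own parent), and
a set of vertices, the bag, for every node. -/
structure TreeDec (n : ℕ) where
  N : ℕ
  par : Fin N → Fin N
  bag : Fin N → Fin n → Bool

/-- `D` is a tree decomposition of the underlying graph of the digraph `H`: the nodes form a tree, the
ends of every arc are in a common bag, and the nodes whose bags contain a vertex `v` form a connected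
part of the tree. -/
structure TreeDec.Of {n : ℕ} (D : TreeDec n) (H : Fin n → Fin n → Bool) : Prop where
  tree : ∃ r, D.par r = r ∧ ∀ i, ∃ m, D.par^[m] i = r
  arc : ∀ u v, u ≠ v → H u v = true → ∃ i, D.bag i u = true ∧ D.bag i v = true
  conn : ∀ v i j, D.bag i v = true → D.bag j v = true →
    Relation.ReflTransGen
      (fun a b => (D.par a = b ∨ D.par b = a) ∧ D.bag a v = true ∧ D.bag b v = true) i j

/-- A set of vertices of a bag without arcs between them has at most `k` members. -/
def TreeDec.IndBound {n : ℕ} (D : TreeDec n) (H : Fin n → Fin n → Bool) (k : ℕ) : Prop :=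
  ∀ (i : Fin D.N) (Q : Finset (Fin n)), (∀ u ∈ Q, D.bag i u = true) →
    (∀ u ∈ Q, ∀ v ∈ Q, u ≠ v → H u v = false) → Q.card ≤ k

/-- The rows of a matrix, one after the other. -/
def rows {m n : ℕ} (A : Fin m → Fin n → Bool) : List Bool :=
  (List.ofFn fun i => List.ofFn (A i)).flatten

/-- A digraph with `n` vertices, a tree decomposition with `N` nodes and two vertices as a string:
`1^n 0 1^N 0 1^s 0 1^t 0`, the adjacency matrix, the matrix of the bags and the matrix of the
parents. -/
def codeT {n : ℕ} (H : Fin n → Fin n → Bool) (D : TreeDec n) (s t : Fin n) : List Bool :=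
  List.replicate n true ++ false :: (List.replicate D.N true ++ false ::
    (List.replicate s true ++ false :: (List.replicate t true ++ false ::
      (rows H ++ (rows D.bag ++ rows fun i j => decide (D.par i = j))))))

end Pool.Agent.TI
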